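import Mathlib

/-!
A Hausdorff topological semilattice all of whose maximal chains are s-complete, but which is
not s-complete itself.
-/

namespace Pool.Agent.Results.MP_cb28d9_gt.MaximalChains

open Set

/-- `s`-completeness of a (topological) semilattice. -/
def SComplete (X : Type*) [TopologicalSpace X] [SemilatticeInf X] : Prop :=
  (∀ S : Set X, S.Nonempty → (∀ a ∈ S, ∀ b ∈ S, a ⊓ b ∈ S) →
      ∃ z, IsGLB S z ∧ z ∈ closure {x | ∃ a ∈ S, a ≤ x}) ∧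
    ∀ C : Set X, C.Nonempty → IsChain (· ≤ ·) C →
      ∃ z, IsLUB C z ∧ z ∈ closure {x | ∃ a ∈ C, x ≤ a}

/-- The semilattice structure on a chain of a semilattice, with the restricted operation. -/
abbrev chainSemilattice {X : Type*} [SemilatticeInf X] (L : Set X) (hL : IsChain (· ≤ ·) L) :
    SemilatticeInf L :=
  Subtype.semilatticeInf fun a b ha hb => by
    rcases hL.total ha hb with h | h
    · rwa [inf_eq_left.2 h]
    · rwa [inf_eq_right.2 h]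

section general

variable {Ω : Type} [LinearOrder Ω]

/-- The ambient join-semilattice (everything is written in the reversed order). -/
abbrev Amb (Ω : Type) := WithTop (Finset Ω) × Ω × Set Ω

/-- The points used in the construction. -/
def Good (p : Amb Ω) : Prop :=
  Iic p.2.1 ⊆ p.2.2 ∧ (p.2.2 \ Iic p.2.1).Finite ∧
    ∀ F : Finset Ω, p.1 = F → p.2.1 ∈ F ∧ (∀ f ∈ F, f ≤ p.2.1) ∧ p.2.2 = Iic p.2.1

lemma Good.sup {p q : Amb Ω} (hp : Good p) (hq : Good q) : Good (p ⊔ q) := by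
  obtain ⟨x, a, T⟩ := p
  obtain ⟨y, b, U⟩ := q
  obtain ⟨h1, h2, h3⟩ := hp
  obtain ⟨k1, k2, k3⟩ := hq
  simp only at h1 h2 h3 k1 k2 k3
  refine ⟨?_, ?_, ?_⟩
  · intro z hz
    change z ≤ a ⊔ b at hz
    rcases le_sup_iff.1 hz with h | h
    · exact Or.inl (h1 h)
    · exact Or.inr (k1 h)
  · refine (h2.union k2).subset ?_
    rintro z ⟨hz | hz, hz2⟩
    · exact Or.inl ⟨hz, fun h => hz2 (le_trans (show z ≤ a from h) le_sup_left)⟩
    · exact Or.inr ⟨hz, fun h => hz2 (le_trans (show z ≤ b from h) le_sup_right)⟩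
  · intro F hF
    change x ⊔ y = F at hF
    have hx : x ≠ ⊤ := by
      rintro rfl
      rw [top_sup_eq] at hF
      exact WithTop.top_ne_coe hF
    have hy : y ≠ ⊤ := by
      rintro rfl
      rw [sup_top_eq] at hF
      exact WithTop.top_ne_coe hF
    obtain ⟨F1, rfl⟩ := WithTop.ne_top_iff_exists.1 hx
    obtain ⟨F2, rfl⟩ := WithTop.ne_top_iff_exists.1 hy
    rw [← WithTop.coe_sup, WithTop.coe_eq_coe] at hF
    subst hF
    obtain ⟨a1, a2, a3⟩ := h3 F1 rfl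
    obtain ⟨b1, b2, b3⟩ := k3 F2 rfl
    change a ⊔ b ∈ F1 ⊔ F2 ∧ (∀ f ∈ F1 ⊔ F2, f ≤ a ⊔ b) ∧ T ⊔ U = Iic (a ⊔ b)
    refine ⟨?_, ?_, ?_⟩
    · rw [Finset.sup_eq_union, Finset.mem_union]
      rcases le_total a b with h | h
      · rw [sup_eq_right.2 h]; exact Or.inr b1
      · rw [sup_eq_left.2 h]; exact Or.inl a1
    · intro f hf
      rw [Finset.sup_eq_union, Finset.mem_union] at hf
      rcases hf with hf | hf
      · exact le_trans (a2 f hf) le_sup_left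
      · exact le_trans (b2 f hf) le_sup_right
    · rw [a3, b3]
      ext z
      simp [le_sup_iff]

/-- The set of all points but the bottom element. -/
def P (Ω : Type) [LinearOrder Ω] := {p : Amb Ω // Good p}

noncomputable instance : SemilatticeSup (P Ω) :=
  Subtype.semilatticeSup fun _ _ hp hq => Good.sup hp hq

/-- First component. -/
def P.x (p : P Ω) : WithTop (Finset Ω) := p.1.1
/-- Second component. -/
def P.a (p : P Ω) : Ω := p.1.2.1
/-- Third component. -/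
def P.T (p : P Ω) : Set Ω := p.1.2.2

lemma P.Iic_sub (p : P Ω) : Iic p.a ⊆ p.T := p.2.1
lemma P.fin (p : P Ω) : (p.T \ Iic p.a).Finite := p.2.2.1
lemma P.typeI (p : P Ω) {F : Finset Ω} (h : p.x = F) :
    p.a ∈ F ∧ (∀ f ∈ F, f ≤ p.a) ∧ p.T = Iic p.a := p.2.2.2 F h

lemma P.ext' {p q : P Ω} (h1 : p.x = q.x) (h2 : p.a = q.a) (h3 : p.T = q.T) : p = q :=
  Subtype.ext (Prod.ext h1 (Prod.ext h2 h3))

lemma le_iff {p q : P Ω} : p ≤ q ↔ p.x ≤ q.x ∧ p.a ≤ q.a ∧ p.T ⊆ q.T := Iff.rfl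

lemma sup_x (p q : P Ω) : (p ⊔ q).x = p.x ⊔ q.x := rfl
lemma sup_a (p q : P Ω) : (p ⊔ q).a = p.a ⊔ q.a := rfl
lemma sup_T (p q : P Ω) : (p ⊔ q).T = p.T ∪ q.T := rfl

/-- Basic neighbourhoods of the points of type II. -/
def Box (p : P Ω) (β : WithBot Ω) (N : ℕ) : Set (P Ω) :=
  {q | (q.a ≤ p.a ∧ q.T \ Iic p.a = p.T \ Iic p.a) ∧
    (q.a = p.a ∨ ∃ g ∈ q.T, β < (g : WithBot Ω) ∧ g < p.a) ∧
    ∀ F : Finset Ω, q.x = F → N ≤ F.card}

open Classical in
/-- Basic neighbourhoods of the points. -/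
noncomputable def nb (p : P Ω) (β : WithBot Ω) (N : ℕ) : Set (P Ω) :=
  if p.x = ⊤ then Box p β N else {p}

/-- Basic neighbourhoods of the extra point. -/
def Up (K : Ω) : Set (P Ω) := {q | ∃ g ∈ q.T, K ≤ g ∧ q.a < g}

/-- The (order dual of the) underlying space. -/
abbrev Y (Ω : Type) [LinearOrder Ω] := WithTop (P Ω)

lemma nb_top {p : P Ω} (h : p.x = ⊤) (β : WithBot Ω) (N : ℕ) : nb p β N = Box p β N := if_pos h
lemma nb_coe {p : P Ω} (h : p.x ≠ ⊤) (β : WithBot Ω) (N : ℕ) : nb p β N = {p} := if_neg h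

lemma Box_mono {p : P Ω} {β γ : WithBot Ω} {M N : ℕ} (hβ : β ≤ γ) (h : M ≤ N) :
    Box p γ N ⊆ Box p β M := by
  rintro q ⟨h1, h2, h3⟩
  refine ⟨h1, ?_, fun F hF => le_trans h (h3 F hF)⟩
  rcases h2 with h2 | ⟨g, hg, hg1, hg2⟩
  · exact Or.inl h2
  · exact Or.inr ⟨g, hg, lt_of_le_of_lt hβ hg1, hg2⟩

lemma nb_mono {p : P Ω} {β γ : WithBot Ω} {M N : ℕ} (hβ : β ≤ γ) (h : M ≤ N) :
    nb p γ N ⊆ nb p β M := by
  by_cases hp : p.x = ⊤
  · rw [nb_top hp, nb_top hp]; exact Box_mono hβ h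
  · rw [nb_coe hp, nb_coe hp]

lemma self_mem_nb (p : P Ω) (β : WithBot Ω) (N : ℕ) : p ∈ nb p β N := by
  by_cases hp : p.x = ⊤
  · rw [nb_top hp]
    refine ⟨⟨le_rfl, rfl⟩, Or.inl rfl, fun F hF => ?_⟩
    rw [hp] at hF
    exact absurd hF WithTop.top_ne_coe
  · rw [nb_coe hp]; rfl

lemma Up_mono {K L : Ω} (h : K ≤ L) : Up L ⊆ Up K := fun _ ⟨g, hg, h1, h2⟩ =>
  ⟨g, hg, le_trans h h1, h2⟩

/-- points near `p` -/
lemma near {p q : P Ω} {β : WithBot Ω} {N : ℕ} (h : q ∈ nb p β N) :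
    q.a ≤ p.a ∧ q.T \ Iic p.a = p.T \ Iic p.a := by
  by_cases hp : p.x = ⊤
  · rw [nb_top hp] at h; exact h.1
  · rw [nb_coe hp] at h
    rw [mem_singleton_iff.1 h]; exact ⟨le_rfl, rfl⟩

lemma near' {p q : P Ω} {β : WithBot Ω} {N : ℕ} (h : q ∈ nb p β N) :
    (q.a = p.a ∨ ∃ g ∈ q.T, β < (g : WithBot Ω) ∧ g < p.a) := by
  by_cases hp : p.x = ⊤
  · rw [nb_top hp] at h; exact h.2.1
  · rw [nb_coe hp] at h
    rw [mem_singleton_iff.1 h]; exact Or.inl rfl

lemma near'' {p q : P Ω} {β : WithBot Ω} {N : ℕ} (hp : p.x = ⊤) (h : q ∈ nb p β N) :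
    ∀ F : Finset Ω, q.x = F → N ≤ F.card := by
  rw [nb_top hp] at h; exact h.2.2

variable [Nonempty Ω]

instance : TopologicalSpace (Y Ω) where
  IsOpen U := (∀ p : P Ω, (p : Y Ω) ∈ U → ∃ β : WithBot Ω, β < (p.a : WithBot Ω) ∧
      ∃ N, ∀ q ∈ nb p β N, (q : Y Ω) ∈ U) ∧
    (⊤ ∈ U → ∃ K : Ω, ∀ q ∈ Up K, (q : Y Ω) ∈ U)
  isOpen_univ := ⟨fun p _ => ⟨⊥, WithBot.bot_lt_coe _, 0, fun _ _ => trivial⟩,
    fun _ => ⟨Classical.arbitrary Ω, fun _ _ => trivial⟩⟩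
  isOpen_inter := by
    rintro U V ⟨hU1, hU2⟩ ⟨hV1, hV2⟩
    refine ⟨fun p hp => ?_, fun ht => ?_⟩
    · obtain ⟨β, hβ, M, hM⟩ := hU1 p hp.1
      obtain ⟨γ, hγ, N, hN⟩ := hV1 p hp.2
      exact ⟨max β γ, max_lt hβ hγ, max M N, fun q hq =>
        ⟨hM q (nb_mono (le_max_left _ _) (le_max_left _ _) hq),
        hN q (nb_mono (le_max_right _ _) (le_max_right _ _) hq)⟩⟩
    · obtain ⟨M, hM⟩ := hU2 ht.1
      obtain ⟨N, hN⟩ := hV2 ht.2
      exact ⟨max M N, fun q hq => ⟨hM q (Up_mono (le_max_left _ _) hq),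
        hN q (Up_mono (le_max_right _ _) hq)⟩⟩
  isOpen_sUnion := by
    intro S hS
    refine ⟨fun p hp => ?_, fun ht => ?_⟩
    · obtain ⟨U, hU, hpU⟩ := hp
      obtain ⟨β, hβ, M, hM⟩ := (hS U hU).1 p hpU
      exact ⟨β, hβ, M, fun q hq => ⟨U, hU, hM q hq⟩⟩
    · obtain ⟨U, hU, hpU⟩ := ht
      obtain ⟨M, hM⟩ := (hS U hU).2 hpU
      exact ⟨M, fun q hq => ⟨U, hU, hM q hq⟩⟩

lemma isOpen_iff {U : Set (Y Ω)} : IsOpen U ↔
    (∀ p : P Ω, (p : Y Ω) ∈ U → ∃ β : WithBot Ω, β < (p.a : WithBot Ω) ∧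
      ∃ N, ∀ q ∈ nb p β N, (q : Y Ω) ∈ U) ∧
    (⊤ ∈ U → ∃ K : Ω, ∀ q ∈ Up K, (q : Y Ω) ∈ U) := Iff.rfl

omit [Nonempty Ω] in
lemma nb_nb {p q : P Ω} {β : WithBot Ω} {N : ℕ} (hβ : β < (p.a : WithBot Ω)) (h : q ∈ nb p β N) :
    ∃ γ : WithBot Ω, γ < (q.a : WithBot Ω) ∧ nb q γ N ⊆ nb p β N := by
  by_cases hp : p.x = ⊤
  swap
  · rw [nb_coe hp, mem_singleton_iff] at h
    subst h
    exact ⟨β, hβ, subset_rfl⟩
  by_cases hq : q.x = ⊤
  swap
  · refine ⟨⊥, WithBot.bot_lt_coe _, ?_⟩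
    rw [nb_coe hq]
    intro r hr
    rw [mem_singleton_iff.1 hr]; exact h
  obtain ⟨h1, h1'⟩ := near h
  have h2 := near' h
  -- a common treatment of the first two components
  have key : ∀ γ : WithBot Ω, ∀ r ∈ nb q γ N,
      (r.a = p.a ∨ ∃ g ∈ r.T, β < (g : WithBot Ω) ∧ g < p.a) → r ∈ nb p β N := by
    intro γ r hr h3
    obtain ⟨hr1, hr2⟩ := near hr
    have hr3 := near'' hq hr
    rw [nb_top hp]
    refine ⟨⟨le_trans hr1 h1, ?_⟩, h3, hr3⟩
    rw [← h1']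
    ext z
    constructor
    · rintro ⟨hz, hz2⟩
      have : z ∈ r.T \ Iic q.a := ⟨hz, fun h => hz2 (le_trans h h1)⟩
      rw [hr2] at this
      exact ⟨this.1, hz2⟩
    · rintro ⟨hz, hz2⟩
      have : z ∈ q.T \ Iic q.a := ⟨hz, fun h => hz2 (le_trans h h1)⟩
      rw [← hr2] at this
      exact ⟨this.1, hz2⟩
  by_cases hbq : β < (q.a : WithBot Ω)
  · refine ⟨β, hbq, fun r hr => key β r hr ?_⟩
    rcases near' hr with h4 | ⟨g, hg, hg1, hg2⟩
    · rcases h1.lt_or_eq with h5 | h5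
      · exact Or.inr ⟨q.a, r.Iic_sub (by rw [h4]; exact le_rfl), hbq, h5⟩
      · exact Or.inl (h4.trans h5)
    · exact Or.inr ⟨g, hg, hg1, lt_of_lt_of_le hg2 h1⟩
  · refine ⟨⊥, WithBot.bot_lt_coe _, fun r hr => key ⊥ r hr ?_⟩
    rcases h2 with h2 | ⟨g, hg, hg1, hg2⟩
    · exact absurd (by rw [h2]; exact hβ) hbq
    · have hgq : g ∈ q.T \ Iic q.a := by
        refine ⟨hg, fun h => hbq (lt_of_lt_of_le hg1 ?_)⟩
        exact WithBot.coe_le_coe.2 h
      rw [← (near hr).2] at hgq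
      exact Or.inr ⟨g, hgq.1, hg1, hg2⟩

/-- The basic neighbourhood as a subset of `Y`. -/
def nbY (p : P Ω) (β : WithBot Ω) (N : ℕ) : Set (Y Ω) := (fun q : P Ω => (q : Y Ω)) '' nb p β N

/-- The neighbourhood of the top as a subset of `Y`. -/
def UpY (K : Ω) : Set (Y Ω) := insert ⊤ ((fun q : P Ω => (q : Y Ω)) '' Up K)

omit [Nonempty Ω] in
lemma coe_mem_nbY {p q : P Ω} {β : WithBot Ω} {M : ℕ} : (q : Y Ω) ∈ nbY p β M ↔ q ∈ nb p β M := by
  constructor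
  · rintro ⟨r, hr, h⟩
    rwa [← WithTop.coe_injective h]
  · intro h; exact ⟨q, h, rfl⟩

omit [Nonempty Ω] in
lemma top_notMem_nbY {p : P Ω} {β : WithBot Ω} {M : ℕ} : (⊤ : Y Ω) ∉ nbY p β M := by
  rintro ⟨r, hr, h⟩
  exact absurd h (WithTop.coe_ne_top)

omit [Nonempty Ω] in
lemma coe_mem_UpY {q : P Ω} {K : Ω} : (q : Y Ω) ∈ UpY K ↔ q ∈ Up K := by
  constructor
  · rintro (h | ⟨r, hr, h⟩)
    · exact absurd h (WithTop.coe_ne_top)
    · rwa [← WithTop.coe_injective h]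
  · intro h; exact Or.inr ⟨q, h, rfl⟩

lemma isOpen_nbY (p : P Ω) {β : WithBot Ω} (hβ : β < (p.a : WithBot Ω)) (M : ℕ) :
    IsOpen (nbY p β M) := by
  rw [isOpen_iff]
  refine ⟨fun q hq => ?_, fun h => absurd h top_notMem_nbY⟩
  rw [coe_mem_nbY] at hq
  obtain ⟨γ, hγ, hsub⟩ := nb_nb hβ hq
  exact ⟨γ, hγ, M, fun r hr => coe_mem_nbY.2 (hsub hr)⟩

lemma isOpen_UpY (K : Ω) : IsOpen (UpY K) := by
  rw [isOpen_iff]
  refine ⟨fun q hq => ⟨⊥, WithBot.bot_lt_coe _, 0, fun r hr => ?_⟩, fun _ => ⟨K, fun r hr => ?_⟩⟩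
  · rw [coe_mem_UpY] at hq ⊢
    obtain ⟨g, hg, h1, h2⟩ := hq
    have : g ∈ q.T \ Iic q.a := ⟨hg, not_le.2 h2⟩
    rw [← (near hr).2] at this
    exact ⟨g, this.1, h1, lt_of_le_of_lt (near hr).1 h2⟩
  · rw [coe_mem_UpY]; exact hr

omit [Nonempty Ω] in
lemma sep_lt {p q : P Ω} (h : p.a < q.a) :
    ∃ β : WithBot Ω, β < (q.a : WithBot Ω) ∧ ∀ γ M N, Disjoint (nbY p γ M) (nbY q β N) := by
  -- the largest relevant element below `q.a`
  let E : Set Ω := insert p.a {g ∈ p.T \ Iic p.a | g < q.a}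
  have hE : E.Finite := (p.fin.subset (sep_subset _ _)).insert _
  obtain ⟨b, hbE, hb⟩ := Set.exists_max_image E id hE ⟨p.a, mem_insert _ _⟩
  have hbq : b < q.a := by
    rcases hbE with h1 | h1
    · rw [h1]; exact h
    · exact h1.2
  refine ⟨b, WithBot.coe_lt_coe.2 hbq, fun γ M N => ?_⟩
  rw [Set.disjoint_left]
  rintro _ ⟨r, hr, rfl⟩ hr2
  rw [coe_mem_nbY] at hr2
  obtain ⟨h1, h2⟩ := near hr
  rcases near' hr2 with h3 | ⟨g, hg, hg1, hg2⟩
  · rw [h3] at h1; exact absurd h (not_lt.2 h1)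
  · have hbg : b < g := WithBot.coe_lt_coe.1 hg1
    have hpb : p.a ≤ b := hb p.a (mem_insert _ _)
    have : g ∈ r.T \ Iic p.a := ⟨hg, not_le.2 (lt_of_le_of_lt hpb hbg)⟩
    rw [h2] at this
    exact absurd (hb g (Or.inr ⟨this, hg2⟩)) (not_le.2 hbg)

omit [Nonempty Ω] in
/-- Separation of two points of `P`. -/
lemma sep_P {p q : P Ω} (h : p ≠ q) : ∃ β γ : WithBot Ω, β < (p.a : WithBot Ω) ∧
    γ < (q.a : WithBot Ω) ∧ ∃ M N, Disjoint (nbY p β M) (nbY q γ N) := by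
  by_cases hp : p.x = ⊤
  · by_cases hq : q.x = ⊤
    · rcases lt_trichotomy p.a q.a with h1 | h1 | h1
      · obtain ⟨β, hβ, hd⟩ := sep_lt h1
        exact ⟨⊥, β, WithBot.bot_lt_coe _, hβ, 0, 0, hd _ _ _⟩
      · refine ⟨⊥, ⊥, WithBot.bot_lt_coe _, WithBot.bot_lt_coe _, 0, 0, ?_⟩
        rw [Set.disjoint_left]
        rintro _ ⟨r, hr, rfl⟩ hr2
        rw [coe_mem_nbY] at hr2
        refine h (P.ext' (hp.trans hq.symm) h1 ?_)
        have h4 : p.T \ Iic p.a = q.T \ Iic p.a := by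
          rw [← (near hr).2, h1, (near hr2).2]
        ext z
        by_cases hz : z ≤ p.a
        · exact ⟨fun _ => q.Iic_sub (by rw [← h1]; exact hz), fun _ => p.Iic_sub hz⟩
        · constructor
          · intro hzT
            have : z ∈ p.T \ Iic p.a := ⟨hzT, hz⟩
            rw [h4] at this; exact this.1
          · intro hzT
            have : z ∈ q.T \ Iic p.a := ⟨hzT, hz⟩
            rw [← h4] at this; exact this.1
      · obtain ⟨β, hβ, hd⟩ := sep_lt h1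
        exact ⟨β, ⊥, hβ, WithBot.bot_lt_coe _, 0, 0, (hd _ _ _).symm⟩
    · obtain ⟨F, hF⟩ := WithTop.ne_top_iff_exists.1 hq
      refine ⟨⊥, ⊥, WithBot.bot_lt_coe _, WithBot.bot_lt_coe _, F.card + 1, 0, ?_⟩
      rw [Set.disjoint_left]
      rintro _ ⟨r, hr, rfl⟩ hr2
      rw [coe_mem_nbY, nb_coe hq, mem_singleton_iff] at hr2
      subst hr2
      have := near'' hp hr F hF.symm
      omega
  · by_cases hq : q.x = ⊤
    · obtain ⟨F, hF⟩ := WithTop.ne_top_iff_exists.1 hp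
      refine ⟨⊥, ⊥, WithBot.bot_lt_coe _, WithBot.bot_lt_coe _, 0, F.card + 1, ?_⟩
      rw [Set.disjoint_left]
      rintro _ ⟨r, hr, rfl⟩ hr2
      rw [nb_coe hp, mem_singleton_iff] at hr
      subst hr
      rw [coe_mem_nbY] at hr2
      have := near'' hq hr2 F hF.symm
      omega
    · refine ⟨⊥, ⊥, WithBot.bot_lt_coe _, WithBot.bot_lt_coe _, 0, 0, ?_⟩
      rw [Set.disjoint_left]
      rintro _ ⟨r, hr, rfl⟩ hr2
      rw [coe_mem_nbY, nb_coe hq, mem_singleton_iff] at hr2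
      rw [nb_coe hp, mem_singleton_iff] at hr
      exact h (hr.symm.trans hr2)

lemma sep_top [NoMaxOrder Ω] (p : P Ω) : ∃ K, Disjoint (nbY p ⊥ 0) (UpY K) := by
  obtain ⟨b, hb⟩ := (p.fin.insert p.a).bddAbove
  obtain ⟨K, hK⟩ := exists_gt b
  refine ⟨K, ?_⟩
  rw [Set.disjoint_left]
  rintro _ ⟨r, hr, rfl⟩ hb2
  rw [coe_mem_UpY] at hb2
  obtain ⟨g, hg, h1, h2⟩ := hb2
  have hpb : p.a ≤ b := hb (mem_insert _ _)
  have : g ∈ r.T \ Iic p.a := ⟨hg, not_le.2 (lt_of_le_of_lt hpb (lt_of_lt_of_le hK h1))⟩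
  rw [(near hr).2] at this
  exact absurd (hb (mem_insert_of_mem _ this)) (not_le.2 (lt_of_lt_of_le hK h1))

instance [NoMaxOrder Ω] : T2Space (Y Ω) := by
  refine ⟨fun x y hxy => ?_⟩
  induction x using WithTop.recTopCoe with
  | top =>
    induction y using WithTop.recTopCoe with
    | top => exact absurd rfl hxy
    | coe q =>
      obtain ⟨K, hK⟩ := sep_top q
      exact ⟨UpY K, nbY q ⊥ 0, isOpen_UpY K, isOpen_nbY q (WithBot.bot_lt_coe _) 0, Or.inl rfl,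
        coe_mem_nbY.2 (self_mem_nb q _ 0), hK.symm⟩
  | coe p =>
    induction y using WithTop.recTopCoe with
    | top =>
      obtain ⟨K, hK⟩ := sep_top p
      exact ⟨nbY p ⊥ 0, UpY K, isOpen_nbY p (WithBot.bot_lt_coe _) 0, isOpen_UpY K,
        coe_mem_nbY.2 (self_mem_nb p _ 0), Or.inl rfl, hK⟩
    | coe q =>
      obtain ⟨β, γ, hβ, hγ, M, N, hd⟩ := sep_P (p := p) (q := q) (fun h => hxy (by rw [h]))
      exact ⟨nbY p β M, nbY q γ N, isOpen_nbY p hβ M, isOpen_nbY q hγ N,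
        coe_mem_nbY.2 (self_mem_nb p _ M), coe_mem_nbY.2 (self_mem_nb q _ N), hd⟩

omit [Nonempty Ω] in
/-- The key computation for the continuity of the operation. -/
lemma nb_sup {p q r s : P Ω} {β β' : WithBot Ω} {M N : ℕ} (hpq : p.a ≤ q.a)
    (hr : r ∈ nb p β' N) (hs : s ∈ nb q β N) (hx : (p ⊔ q).x = ⊤) (hMN : M ≤ N) :
    r ⊔ s ∈ nb (p ⊔ q) β M := by
  obtain ⟨r1, r2⟩ := near hr
  obtain ⟨s1, s2⟩ := near hs
  have ha : (p ⊔ q).a = q.a := by rw [sup_a, sup_eq_right.2 hpq]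
  rw [nb_top hx]
  refine ⟨⟨?_, ?_⟩, ?_, ?_⟩
  · rw [ha, sup_a]; exact sup_le (r1.trans hpq) s1
  · rw [ha, sup_T, sup_T, union_sdiff_distrib, union_sdiff_distrib, s2]
    congr 1
    ext z
    constructor
    · rintro ⟨hz, hz2⟩
      have : z ∈ r.T \ Iic p.a := ⟨hz, fun h => hz2 (le_trans h hpq)⟩
      rw [r2] at this
      exact ⟨this.1, hz2⟩
    · rintro ⟨hz, hz2⟩
      have : z ∈ p.T \ Iic p.a := ⟨hz, fun h => hz2 (le_trans h hpq)⟩
      rw [← r2] at this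
      exact ⟨this.1, hz2⟩
  · rw [ha]
    rcases near' hs with h | ⟨g, hg, hg1, hg2⟩
    · left
      rw [sup_a, h, sup_eq_right.2 (r1.trans hpq)]
    · exact Or.inr ⟨g, Or.inr hg, hg1, hg2⟩
  · intro F hF
    rw [sup_x] at hF
    have hrx : r.x ≠ ⊤ := by
      intro h; rw [h, top_sup_eq] at hF; exact WithTop.top_ne_coe hF
    have hsx : s.x ≠ ⊤ := by
      intro h; rw [h, sup_top_eq] at hF; exact WithTop.top_ne_coe hF
    obtain ⟨F1, hF1⟩ := WithTop.ne_top_iff_exists.1 hrx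
    obtain ⟨F2, hF2⟩ := WithTop.ne_top_iff_exists.1 hsx
    rw [← hF1, ← hF2, ← WithTop.coe_sup, WithTop.coe_eq_coe] at hF
    subst hF
    refine hMN.trans ?_
    by_cases hp : p.x = ⊤
    · exact (near'' hp hr F1 hF1.symm).trans (Finset.card_le_card Finset.subset_union_left)
    · by_cases hq : q.x = ⊤
      · exact (near'' hq hs F2 hF2.symm).trans (Finset.card_le_card Finset.subset_union_right)
      · exfalso
        obtain ⟨A, hA⟩ := WithTop.ne_top_iff_exists.1 hp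
        obtain ⟨B, hB⟩ := WithTop.ne_top_iff_exists.1 hq
        rw [sup_x, ← hA, ← hB, ← WithTop.coe_sup] at hx
        exact WithTop.coe_ne_top hx

omit [Nonempty Ω] in
lemma nb_sup' {p q : P Ω} {β : WithBot Ω} {M : ℕ} (hβ : β < ((p ⊔ q).a : WithBot Ω)) :
    ∃ β₁ β₂ : WithBot Ω, β₁ < (p.a : WithBot Ω) ∧ β₂ < (q.a : WithBot Ω) ∧
      ∀ r ∈ nb p β₁ M, ∀ s ∈ nb q β₂ M, r ⊔ s ∈ nb (p ⊔ q) β M := by
  by_cases hx : (p ⊔ q).x = ⊤
  · rcases le_total p.a q.a with h | h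
    · have ha : (p ⊔ q).a = q.a := by rw [sup_a, sup_eq_right.2 h]
      exact ⟨⊥, β, WithBot.bot_lt_coe _, by rwa [← ha],
        fun r hr s hs => nb_sup h hr hs hx le_rfl⟩
    · have ha : (p ⊔ q).a = p.a := by rw [sup_a, sup_eq_left.2 h]
      refine ⟨β, ⊥, by rwa [← ha], WithBot.bot_lt_coe _, fun r hr s hs => ?_⟩
      rw [sup_comm r s, sup_comm p q]
      exact nb_sup h hs hr (by rwa [sup_comm]) le_rfl
  · have hp : p.x ≠ ⊤ := fun h => hx (by rw [sup_x, h, top_sup_eq])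
    have hq : q.x ≠ ⊤ := fun h => hx (by rw [sup_x, h, sup_top_eq])
    refine ⟨⊥, ⊥, WithBot.bot_lt_coe _, WithBot.bot_lt_coe _, fun r hr s hs => ?_⟩
    rw [nb_coe hp, mem_singleton_iff] at hr
    rw [nb_coe hq, mem_singleton_iff] at hs
    rw [hr, hs]; exact self_mem_nb _ _ _

omit [Nonempty Ω] in
lemma Up_sup {K : Ω} {q r : P Ω} (hq : q ∈ Up K) (hr : r ∈ Up K) : q ⊔ r ∈ Up K := by
  obtain ⟨g, hg, h1, h2⟩ := hq
  obtain ⟨g', hg', h1', h2'⟩ := hr
  rcases le_total g g' with h | h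
  · exact ⟨g', Or.inr hg', h1', by rw [sup_a]; exact sup_lt_iff.2 ⟨lt_of_lt_of_le h2 h, h2'⟩⟩
  · exact ⟨g, Or.inl hg, h1, by rw [sup_a]; exact sup_lt_iff.2 ⟨h2, lt_of_lt_of_le h2' h⟩⟩

omit [Nonempty Ω] in
lemma Up_sup_P [NoMaxOrder Ω] (q : P Ω) (K : Ω) :
    ∃ K', ∀ r ∈ Up K', ∀ s ∈ nb q ⊥ 0, r ⊔ s ∈ Up K := by
  obtain ⟨b, hb⟩ := exists_gt q.a
  refine ⟨max K b, fun r hr s hs => ?_⟩
  obtain ⟨g, hg, h1, h2⟩ := hr
  refine ⟨g, Or.inl hg, (le_max_left _ _).trans h1, ?_⟩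
  rw [sup_a]
  exact sup_lt_iff.2 ⟨h2, lt_of_le_of_lt (near hs).1
    (lt_of_lt_of_le hb ((le_max_right _ _).trans h1))⟩

instance [NoMaxOrder Ω] : ContinuousSup (Y Ω) := by
  refine ⟨?_⟩
  rw [continuous_def]
  intro W hW
  rw [isOpen_prod_iff]
  intro a b hab
  have htop : ∀ q : P Ω, (⊤ : Y Ω) ∈ W → ∃ K', ∀ x ∈ UpY K', ∀ y ∈ nbY q ⊥ 0, x ⊔ y ∈ W := by
    intro q ht
    obtain ⟨K, hK⟩ := hW.2 ht
    obtain ⟨K', hK'⟩ := Up_sup_P q K
    refine ⟨K', ?_⟩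
    rintro x (rfl | ⟨r, hr, rfl⟩) y ⟨s, hs, rfl⟩
    · rwa [top_sup_eq]
    · rw [← WithTop.coe_sup]; exact hK _ (hK' r hr s hs)
  induction a using WithTop.recTopCoe with
  | top =>
    induction b using WithTop.recTopCoe with
    | top =>
      have ht : (⊤ : Y Ω) ∈ W := by simpa using hab
      obtain ⟨K, hK⟩ := hW.2 ht
      refine ⟨UpY K, UpY K, isOpen_UpY K, isOpen_UpY K, Or.inl rfl, Or.inl rfl, ?_⟩
      rintro ⟨x, y⟩ ⟨hx, hy⟩
      change x ⊔ y ∈ W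
      rcases hx with hx | ⟨r, hr, hx⟩
      · simp only at hx; rw [hx, top_sup_eq]; exact ht
      · rcases hy with hy | ⟨s, hs, hy⟩
        · simp only at hy; rw [hy, sup_top_eq]; exact ht
        · simp only at hx hy
          rw [← hx, ← hy, ← WithTop.coe_sup]; exact hK _ (Up_sup hr hs)
    | coe q =>
      obtain ⟨K', hK'⟩ := htop q (by simpa using hab)
      exact ⟨UpY K', nbY q ⊥ 0, isOpen_UpY K', isOpen_nbY q (WithBot.bot_lt_coe _) 0, Or.inl rfl,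
        coe_mem_nbY.2 (self_mem_nb q _ 0), fun ⟨x, y⟩ ⟨hx, hy⟩ => hK' x hx y hy⟩
  | coe p =>
    induction b using WithTop.recTopCoe with
    | top =>
      obtain ⟨K', hK'⟩ := htop p (by simpa using hab)
      refine ⟨nbY p ⊥ 0, UpY K', isOpen_nbY p (WithBot.bot_lt_coe _) 0, isOpen_UpY K',
        coe_mem_nbY.2 (self_mem_nb p _ 0), Or.inl rfl, fun ⟨x, y⟩ ⟨hx, hy⟩ => ?_⟩
      change x ⊔ y ∈ W
      rw [sup_comm]; exact hK' y hy x hx
    | coe q =>
      have h1 : ((p ⊔ q : P Ω) : Y Ω) ∈ W := by rw [WithTop.coe_sup]; exact hab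
      obtain ⟨β, hβ, M, hM⟩ := hW.1 _ h1
      obtain ⟨β₁, β₂, hβ₁, hβ₂, hsup⟩ := nb_sup' (M := M) hβ
      refine ⟨nbY p β₁ M, nbY q β₂ M, isOpen_nbY p hβ₁ M, isOpen_nbY q hβ₂ M,
        coe_mem_nbY.2 (self_mem_nb p _ M), coe_mem_nbY.2 (self_mem_nb q _ M), ?_⟩
      rintro ⟨x, y⟩ ⟨⟨r, hr, hx⟩, ⟨s, hs, hy⟩⟩
      change x ⊔ y ∈ W
      simp only at hx hy
      rw [← hx, ← hy, ← WithTop.coe_sup]; exact hM _ (hsup r hr s hs)

end general

/-! ### Chains -/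

section chains

variable {Ω : Type} [LinearOrder Ω]

/-- A strictly monotone rank function. -/
noncomputable def rk (p : P Ω) : WithTop (Finset Ω) ×ₗ (Ω ×ₗ ℕ) :=
  toLex (p.x, toLex (p.a, (p.T \ Iic p.a).ncard))

lemma rk_strictMono : StrictMono (rk : P Ω → _) := by
  intro p q hpq
  obtain ⟨h1, h2, h3⟩ := le_iff.1 hpq.le
  unfold rk
  rw [Prod.Lex.lt_iff]
  rcases h1.lt_or_eq with h | h
  · exact Or.inl h
  · refine Or.inr ⟨h, ?_⟩
    rw [Prod.Lex.lt_iff]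
    rcases h2.lt_or_eq with h' | h'
    · exact Or.inl h'
    · refine Or.inr ⟨h', ?_⟩
      simp only [ofLex_toLex]
      rw [← h']
      apply Set.ncard_lt_ncard _ (by rw [h']; exact q.fin)
      refine ⟨sdiff_subset_sdiff_left h3, fun hsub => hpq.ne (P.ext' h h' ?_)⟩
      refine subset_antisymm h3 fun z hz => ?_
      by_cases hza : z ≤ p.a
      · exact p.Iic_sub hza
      · exact (hsub ⟨hz, hza⟩).1

instance [WellFoundedLT Ω] : WellFoundedLT (P Ω) := rk_strictMono.wellFoundedLT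

/-- Every nonempty chain of `Y` has a least element. -/
lemma exists_isLeast [WellFoundedLT Ω] {C : Set (Y Ω)} (hC : C.Nonempty)
    (hch : IsChain (· ≤ ·) C) : ∃ c, IsLeast C c := by
  have wf : WellFounded ((· < ·) : Y Ω → Y Ω → Prop) := wellFounded_lt
  obtain ⟨c, hc, hmin⟩ := wf.has_min C hC
  refine ⟨c, hc, fun x hx => ?_⟩
  rcases hch.total hc hx with h | h
  · exact h
  · rcases h.lt_or_eq with h' | h'
    · exact absurd h' (hmin x hx)
    · exact h'.ge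

omit [LinearOrder Ω] in
/-- A chain of finite sets has a countable union. -/
lemma countable_of_chain {I : Type*} {C : Set I} (f : I → Set Ω) (hf : ∀ i ∈ C, (f i).Finite)
    (hch : ∀ i ∈ C, ∀ j ∈ C, f i ⊆ f j ∨ f j ⊆ f i) : (⋃ i ∈ C, f i).Countable := by
  have h1 : (f '' C).Countable := by
    have hinj : InjOn (fun s : Set Ω => s.ncard) (f '' C) := by
      rintro _ ⟨i, hi, rfl⟩ _ ⟨j, hj, rfl⟩ hij
      rcases hch i hi j hj with h | h
      · exact Set.eq_of_subset_of_ncard_le h hij.ge (hf j hj)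
      · exact (Set.eq_of_subset_of_ncard_le h hij.le (hf i hi)).symm
    exact MapsTo.countable_of_injOn (mapsTo_univ _ _) hinj (Set.to_countable _)
  have h2 : (⋃ i ∈ C, f i) = ⋃₀ (f '' C) := by
    rw [sUnion_image]
  rw [h2]
  refine h1.sUnion ?_
  rintro _ ⟨i, hi, rfl⟩
  exact (hf i hi).countable

omit [LinearOrder Ω] in
/-- In a chain, finitely many members have a common upper bound in the chain: version for a
finite subset of a union. -/
lemma exists_cover {I : Type*} [Preorder I] {C : Set I} (hC : C.Nonempty)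
    (hch : IsChain (· ≤ ·) C) (f : I → Set Ω) (hf : ∀ i ∈ C, ∀ j ∈ C, i ≤ j → f i ⊆ f j)
    {E : Set Ω} (hE : E.Finite) (hsub : E ⊆ ⋃ i ∈ C, f i) : ∃ i ∈ C, E ⊆ f i := by
  induction E, hE using Set.Finite.induction_on with
  | empty => obtain ⟨c, hc⟩ := hC; exact ⟨c, hc, empty_subset _⟩
  | @insert a s _ _ ih =>
    obtain ⟨i, hi, hs⟩ := ih ((subset_insert _ _).trans hsub)
    have ha := hsub (mem_insert a s)
    simp only [mem_iUnion] at ha
    obtain ⟨j, hj, haj⟩ := ha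
    rcases hch.total hi hj with h | h
    · refine ⟨j, hj, insert_subset haj (hs.trans (hf i hi j hj h))⟩
    · exact ⟨i, hi, insert_subset (hf j hj i hi h haj) hs⟩

/-- The type II point with given data. -/
def mk2 (γ : Ω) (A : Set Ω) (hA : (A \ Iic γ).Finite) : P Ω :=
  ⟨(⊤, γ, Iic γ ∪ A), subset_union_left, by
    simp only
    rw [union_sdiff_left]; exact hA,
    fun F hF => absurd hF WithTop.top_ne_coe⟩

lemma mk2_x (γ : Ω) (A : Set Ω) (hA : (A \ Iic γ).Finite) : (mk2 γ A hA).x = ⊤ := rfl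
lemma mk2_a (γ : Ω) (A : Set Ω) (hA : (A \ Iic γ).Finite) : (mk2 γ A hA).a = γ := rfl
lemma mk2_T (γ : Ω) (A : Set Ω) (hA : (A \ Iic γ).Finite) : (mk2 γ A hA).T = Iic γ ∪ A := rfl

/-- Bounded chains containing a type II point. -/
lemma caseB [WellFoundedLT Ω] (hcb : ∀ S : Set Ω, S.Countable → BddAbove S) {C : Set (P Ω)}
    (hch : IsChain (· ≤ ·) C) {c0 : P Ω} (hc0 : c0 ∈ C) (hc0x : c0.x = ⊤)
    (hb : BddAbove (P.a '' C)) :
    ∃ z : P Ω, IsLUB C z ∧ ∀ β : WithBot Ω, β < (z.a : WithBot Ω) → ∀ N, ∃ c ∈ C, c ∈ nb z β N := by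
  have wf : WellFounded ((· < ·) : Ω → Ω → Prop) := wellFounded_lt
  let A : Set Ω := ⋃ c ∈ C, c.T
  let E : Set Ω := {γ | (∀ c ∈ C, c.a ≤ γ) ∧ (A \ Iic γ).Finite}
  have hsubA : ∀ c ∈ C, c.T ⊆ A := fun c hc => subset_biUnion_of_mem (u := fun c : P Ω => c.T) hc
  have hE : E.Nonempty := by
    obtain ⟨b, hb⟩ := hb
    have h1 : (⋃ c ∈ C, (c.T \ Iic b)).Countable := by
      refine countable_of_chain (fun c : P Ω => c.T \ Iic b) (fun c hc => ?_) (fun i hi j hj => ?_)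
      · refine c.fin.subset (sdiff_subset_sdiff_right ?_)
        exact Iic_subset_Iic.2 (hb ⟨c, hc, rfl⟩)
      · rcases hch.total hi hj with h | h
        · exact Or.inl (sdiff_subset_sdiff_left (le_iff.1 h).2.2)
        · exact Or.inr (sdiff_subset_sdiff_left (le_iff.1 h).2.2)
    obtain ⟨b', hb'⟩ := hcb _ h1
    refine ⟨max b b', fun c hc => (hb ⟨c, hc, rfl⟩).trans (le_max_left _ _), ?_⟩
    have : A \ Iic (max b b') = ∅ := by
      rw [eq_empty_iff_forall_notMem]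
      rintro z ⟨hz, hz2⟩
      simp only [A, mem_iUnion] at hz
      obtain ⟨c, hc, hzc⟩ := hz
      have h3 : z ∈ ⋃ c ∈ C, (c.T \ Iic b) := by
        simp only [mem_iUnion]
        exact ⟨c, hc, hzc, fun h => hz2 (le_trans h (le_max_left _ _))⟩
      exact hz2 ((hb' h3).trans (le_max_right _ _))
    rw [this]; exact finite_empty
  obtain ⟨γ, ⟨hγ1, hγ2⟩, hmin⟩ := wf.has_min E hE
  refine ⟨mk2 γ A hγ2, ⟨fun c hc => ?_, fun u hu => ?_⟩, fun β hβ N => ?_⟩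
  · rw [le_iff, mk2_x, mk2_a, mk2_T]
    exact ⟨le_top, hγ1 c hc, (hsubA c hc).trans subset_union_right⟩
  · rw [le_iff, mk2_x, mk2_a, mk2_T]
    have hux : u.x = ⊤ := top_le_iff.1 (by rw [← hc0x]; exact (le_iff.1 (hu hc0)).1)
    have hAu : A ⊆ u.T := iUnion₂_subset fun c hc => (le_iff.1 (hu hc)).2.2
    have huE : u.a ∈ E := ⟨fun c hc => (le_iff.1 (hu hc)).2.1,
      u.fin.subset (sdiff_subset_sdiff_left hAu)⟩
    have hγu : γ ≤ u.a := not_lt.1 (hmin u.a huE)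
    exact ⟨by rw [hux], hγu, union_subset ((Iic_subset_Iic.2 hγu).trans u.Iic_sub) hAu⟩
  · rw [mk2_a] at hβ
    -- the relevant part of `A` is covered by one member of the chain
    obtain ⟨c1, hc1, hcov⟩ := exists_cover ⟨c0, hc0⟩ hch (fun c : P Ω => c.T)
      (fun i _ j _ h => (le_iff.1 h).2.2) hγ2 (fun z hz => hz.1)
    have h2 : ∃ c ∈ C, c.a = γ ∨ ∃ g ∈ c.T, β < (g : WithBot Ω) ∧ g < γ := by
      by_contra hc
      push Not at hc
      have hle : ∀ c ∈ C, (c.a : WithBot Ω) ≤ β := by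
        intro c hcC
        by_contra hcβ
        have h3 := (hc c hcC).2 c.a (c.Iic_sub (le_refl c.a)) (not_le.1 hcβ)
        exact (hc c hcC).1 (le_antisymm (hγ1 c hcC) h3)
      have hβ0 : β ≠ ⊥ := by
        rintro rfl
        exact absurd (le_bot_iff.1 (hle c0 hc0)) WithBot.coe_ne_bot
      obtain ⟨b, rfl⟩ := WithBot.ne_bot_iff_exists.1 hβ0
      refine hmin b ⟨fun c hcC => WithBot.coe_le_coe.1 (hle c hcC), ?_⟩ (WithBot.coe_lt_coe.1 hβ)
      refine (hγ2.insert γ).subset ?_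
      rintro z ⟨hz, hz2⟩
      rcases lt_trichotomy z γ with h | h | h
      · exfalso
        simp only [A, mem_iUnion] at hz
        obtain ⟨c, hcC, hzc⟩ := hz
        exact absurd h (not_lt.2 ((hc c hcC).2 z hzc (WithBot.coe_lt_coe.2 (not_le.1 hz2))))
      · exact Or.inl h
      · exact Or.inr ⟨hz, not_le.2 h⟩
    obtain ⟨c2, hc2, h2⟩ := h2
    -- take the largest of `c0, c1, c2`
    obtain ⟨c, hc, hc0c, hc1c, hc2c⟩ : ∃ c ∈ C, c0 ≤ c ∧ c1 ≤ c ∧ c2 ≤ c := by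
      rcases hch.total hc0 hc1 with h | h
      · rcases hch.total hc1 hc2 with h' | h'
        · exact ⟨c2, hc2, h.trans h', h', le_rfl⟩
        · exact ⟨c1, hc1, h, le_rfl, h'⟩
      · rcases hch.total hc0 hc2 with h' | h'
        · exact ⟨c2, hc2, h', h.trans h', le_rfl⟩
        · exact ⟨c0, hc0, le_rfl, h, h'⟩
    refine ⟨c, hc, ?_⟩
    rw [nb_top (mk2_x _ _ _)]
    refine ⟨⟨hγ1 c hc, ?_⟩, ?_, fun F hF => ?_⟩
    · rw [mk2_T, mk2_a, union_sdiff_left]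
      refine subset_antisymm (sdiff_subset_sdiff_left (hsubA c hc)) ?_
      rintro z hz
      exact ⟨(le_iff.1 hc1c).2.2 (hcov hz), hz.2⟩
    · rw [mk2_a]
      rcases h2 with h2 | ⟨g, hg, hg1, hg2⟩
      · left
        exact le_antisymm (hγ1 c hc) (by rw [← h2]; exact (le_iff.1 hc2c).2.1)
      · exact Or.inr ⟨g, (le_iff.1 hc2c).2.2 hg, hg1, hg2⟩
    · exfalso
      have h5 := (le_iff.1 hc0c).1
      rw [hc0x, hF] at h5
      exact absurd (top_le_iff.1 h5) WithTop.coe_ne_top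

/-- The set of first data of a chain of type I points is countable. -/
lemma countable_typeI {C : Set (P Ω)} (hch : IsChain (· ≤ ·) C) (hI : ∀ c ∈ C, c.x ≠ ⊤) :
    (P.a '' C).Countable := by
  classical
  let f : P Ω → Set Ω := fun c => {g | ∃ F : Finset Ω, c.x = F ∧ g ∈ F}
  have hf : ∀ c ∈ C, ∃ F : Finset Ω, c.x = F ∧ f c = F := by
    intro c hc
    obtain ⟨F, hF⟩ := WithTop.ne_top_iff_exists.1 (hI c hc)
    refine ⟨F, hF.symm, ?_⟩
    ext g
    constructor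
    · rintro ⟨F', hF', hg⟩
      rw [← hF, WithTop.coe_eq_coe] at hF'
      rw [hF']; exact hg
    · intro hg
      exact ⟨F, hF.symm, hg⟩
  have h1 : (⋃ c ∈ C, f c).Countable := by
    refine countable_of_chain f (fun c hc => ?_) (fun i hi j hj => ?_)
    · obtain ⟨F, -, h⟩ := hf c hc
      rw [h]; exact F.finite_toSet
    · obtain ⟨F, hF1, hF2⟩ := hf i hi
      obtain ⟨F', hF1', hF2'⟩ := hf j hj
      rw [hF2, hF2']
      rcases hch.total hi hj with h | h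
      · left
        have := (le_iff.1 h).1
        rw [hF1, hF1', WithTop.coe_le_coe] at this
        exact Finset.coe_subset.2 this
      · right
        have := (le_iff.1 h).1
        rw [hF1, hF1', WithTop.coe_le_coe] at this
        exact Finset.coe_subset.2 this
  refine h1.mono ?_
  rintro _ ⟨c, hc, rfl⟩
  simp only [mem_iUnion]
  obtain ⟨F, hF1, hF2⟩ := hf c hc
  refine ⟨c, hc, ?_⟩
  rw [hF2]
  exact (c.typeI hF1).1

/-- Chains of type I points. -/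
lemma caseA [WellFoundedLT Ω] (hcb : ∀ S : Set Ω, S.Countable → BddAbove S) {C : Set (P Ω)}
    (hC : C.Nonempty) (hch : IsChain (· ≤ ·) C) (hI : ∀ c ∈ C, c.x ≠ ⊤) :
    ∃ z : P Ω, IsLUB C z ∧ ∀ β : WithBot Ω, β < (z.a : WithBot Ω) → ∀ N, ∃ c ∈ C, c ∈ nb z β N := by
  have wf : WellFounded ((· < ·) : Ω → Ω → Prop) := wellFounded_lt
  by_cases hg : ∃ m ∈ C, ∀ c ∈ C, c ≤ m
  · obtain ⟨m, hm, hmax⟩ := hg
    exact ⟨m, ⟨hmax, fun u hu => hu hm⟩, fun β _ N => ⟨m, hm, self_mem_nb _ _ _⟩⟩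
  push Not at hg
  have hstrict : ∀ m ∈ C, ∃ c ∈ C, m < c := by
    intro m hm
    obtain ⟨c, hc, hcm⟩ := hg m hm
    refine ⟨c, hc, ?_⟩
    rcases hch.total hm hc with h | h
    · exact lt_of_le_of_ne h (fun h' => hcm h'.ge)
    · exact absurd h hcm
  have hbig : ∀ N, ∃ c ∈ C, ∀ F : Finset Ω, c.x = F → N ≤ F.card := by
    intro N
    induction N with
    | zero => obtain ⟨c, hc⟩ := hC; exact ⟨c, hc, fun _ _ => Nat.zero_le _⟩
    | succ N ih =>
      obtain ⟨c, hc, hcard⟩ := ih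
      obtain ⟨d, hd, hcd⟩ := hstrict c hc
      refine ⟨d, hd, fun F hF => ?_⟩
      obtain ⟨F', hF'⟩ := WithTop.ne_top_iff_exists.1 (hI c hc)
      have h1 := hcard F' hF'.symm
      have h2 := (le_iff.1 hcd.le).1
      rw [← hF', hF, WithTop.coe_le_coe] at h2
      have h3 : F' ≠ F := by
        rintro rfl
        have ha := c.typeI hF'.symm
        have hb := d.typeI hF
        have hab : c.a = d.a := le_antisymm (hb.2.1 _ ha.1) (ha.2.1 _ hb.1)
        refine hcd.ne (P.ext' (hF'.symm.trans hF.symm) hab ?_)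
        rw [ha.2.2, hb.2.2, hab]
      have h4 : F' ⊂ F := lt_of_le_of_ne h2 h3
      have := Finset.card_lt_card h4
      omega
  obtain ⟨b0, hb0⟩ := hcb _ (countable_typeI hch hI)
  obtain ⟨γ, hγ, hmin⟩ := wf.has_min {γ | ∀ c ∈ C, c.a ≤ γ} ⟨b0, fun c hc => hb0 ⟨c, hc, rfl⟩⟩
  have hT : ∀ c ∈ C, c.T = Iic c.a := by
    intro c hc
    obtain ⟨F, hF⟩ := WithTop.ne_top_iff_exists.1 (hI c hc)
    exact (c.typeI hF.symm).2.2
  have hfin : ((∅ : Set Ω) \ Iic γ).Finite := by rw [empty_sdiff]; exact finite_empty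
  refine ⟨mk2 γ ∅ hfin, ⟨fun c hc => ?_, fun u hu => ?_⟩, fun β hβ N => ?_⟩
  · rw [le_iff, mk2_x, mk2_a, mk2_T, union_empty]
    exact ⟨le_top, hγ c hc, by rw [hT c hc]; exact Iic_subset_Iic.2 (hγ c hc)⟩
  · rw [le_iff, mk2_x, mk2_a, mk2_T, union_empty]
    have hγu : γ ≤ u.a := not_lt.1 (hmin u.a fun c hc => (le_iff.1 (hu hc)).2.1)
    refine ⟨?_, hγu, (Iic_subset_Iic.2 hγu).trans u.Iic_sub⟩
    rw [top_le_iff]
    by_contra hux
    obtain ⟨F, hF⟩ := WithTop.ne_top_iff_exists.1 hux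
    obtain ⟨c, hc, hcard⟩ := hbig (F.card + 1)
    obtain ⟨F', hF'⟩ := WithTop.ne_top_iff_exists.1 (hI c hc)
    have h1 := hcard F' hF'.symm
    have h2 := (le_iff.1 (hu hc)).1
    rw [← hF', ← hF, WithTop.coe_le_coe] at h2
    have := Finset.card_le_card h2
    omega
  · rw [mk2_a] at hβ
    obtain ⟨c1, hc1, hcard⟩ := hbig N
    have h2 : ∃ c ∈ C, β < (c.a : WithBot Ω) := by
      by_contra hc
      push Not at hc
      have hβ0 : β ≠ ⊥ := by
        rintro rfl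
        obtain ⟨c, hcC⟩ := hC
        exact absurd (le_bot_iff.1 (hc c hcC)) WithBot.coe_ne_bot
      obtain ⟨b, rfl⟩ := WithBot.ne_bot_iff_exists.1 hβ0
      exact hmin b (fun c hcC => WithBot.coe_le_coe.1 (hc c hcC)) (WithBot.coe_lt_coe.1 hβ)
    obtain ⟨c2, hc2, h2⟩ := h2
    obtain ⟨c, hc, hc1c, hc2c⟩ : ∃ c ∈ C, c1 ≤ c ∧ c2 ≤ c := by
      rcases hch.total hc1 hc2 with h | h
      · exact ⟨c2, hc2, h, le_rfl⟩
      · exact ⟨c1, hc1, le_rfl, h⟩
    refine ⟨c, hc, ?_⟩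
    rw [nb_top (mk2_x _ _ _)]
    refine ⟨⟨hγ c hc, ?_⟩, ?_, fun F hF => ?_⟩
    · rw [mk2_T, mk2_a, union_empty, hT c hc, sdiff_eq_empty.2 (Iic_subset_Iic.2 (hγ c hc)),
        sdiff_self]
    · rw [mk2_a]
      rcases (hγ c hc).lt_or_eq with h3 | h3
      · exact Or.inr ⟨c.a, c.Iic_sub (le_refl c.a),
          lt_of_lt_of_le h2 (WithBot.coe_le_coe.2 (le_iff.1 hc2c).2.1), h3⟩
      · exact Or.inl h3
    · obtain ⟨F', hF'⟩ := WithTop.ne_top_iff_exists.1 (hI c1 hc1)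
      have h1 := hcard F' hF'.symm
      have h2 := (le_iff.1 hc1c).1
      rw [← hF', hF, WithTop.coe_le_coe] at h2
      exact h1.trans (Finset.card_le_card h2)

/-- In a maximal chain that is unbounded, there are points close to the top. -/
lemma meets_Up [WellFoundedLT Ω] {M : Set (Y Ω)} (hM : IsMaxChain (· ≤ ·) M) {S : Set (P Ω)}
    (hSM : ∀ s ∈ S, (s : Y Ω) ∈ M) {c0 : P Ω} (hc0 : c0 ∈ S) (hc0x : c0.x = ⊤)
    (hunb : ¬ BddAbove (P.a '' S)) (K : Ω) : ∃ r ∈ Up K, (r : Y Ω) ∈ M := by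
  classical
  have wf : WellFounded ((· < ·) : Ω → Ω → Prop) := wellFounded_lt
  by_contra hno
  push Not at hno
  have hT : ∀ r : P Ω, (r : Y Ω) ∈ M → K ≤ r.a → r.T = Iic r.a := by
    intro r hr hK
    refine subset_antisymm (fun g hg => ?_) r.Iic_sub
    by_contra hgr
    exact hno r ⟨g, hg, hK.trans (not_le.1 hgr).le, not_le.1 hgr⟩ hr
  have hunb' : ∀ b, ∃ s ∈ S, b < s.a := by
    intro b
    by_contra hc
    push Not at hc
    exact hunb ⟨b, by rintro _ ⟨s, hs, rfl⟩; exact hc s hs⟩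
  have htot : ∀ r s : P Ω, (r : Y Ω) ∈ M → (s : Y Ω) ∈ M → r ≤ s ∨ s ≤ r := by
    intro r s hr hs
    rcases hM.1.total hr hs with h | h
    · exact Or.inl (WithTop.coe_le_coe.1 h)
    · exact Or.inr (WithTop.coe_le_coe.1 h)
  -- a type II point of `S` above `K`
  obtain ⟨s1, hs1, hs1K, hs1x⟩ : ∃ s ∈ S, K ≤ s.a ∧ s.x = ⊤ := by
    obtain ⟨s, hs, h⟩ := hunb' (max K c0.a)
    refine ⟨s, hs, (le_max_left _ _).trans h.le, ?_⟩
    rcases htot s c0 (hSM s hs) (hSM c0 hc0) with h' | h'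
    · exact absurd (le_iff.1 h').2.1 (not_le.2 (lt_of_le_of_lt (le_max_right _ _) h))
    · exact top_le_iff.1 (by rw [← hc0x]; exact (le_iff.1 h').1)
  have hs1T := hT s1 (hSM s1 hs1) hs1K
  obtain ⟨α', ⟨hα1, r', hr'M, hr'a⟩, hmin⟩ :=
    wf.has_min {γ | s1.a < γ ∧ ∃ r : P Ω, (r : Y Ω) ∈ M ∧ r.a = γ} (by
      obtain ⟨s, hs, h⟩ := hunb' s1.a
      exact ⟨s.a, h, s, hSM s hs, rfl⟩)
  have hfin : (({α'} : Set Ω) \ Iic s1.a).Finite := (finite_singleton α').subset sdiff_subset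
  let t : P Ω := mk2 s1.a {α'} hfin
  have ht1 : s1 ≤ t := by
    rw [le_iff]
    exact ⟨le_top, le_rfl, by rw [hs1T]; exact subset_union_left⟩
  have key : ∀ m ∈ M, (t : Y Ω) ≤ m ∨ m ≤ (t : Y Ω) := by
    intro m hm
    induction m using WithTop.recTopCoe with
    | top => exact Or.inl le_top
    | coe r =>
      rcases htot r s1 hm (hSM s1 hs1) with h | h
      · exact Or.inr (WithTop.coe_le_coe.2 (h.trans ht1))
      · have hrx : r.x = ⊤ := top_le_iff.1 (by rw [← hs1x]; exact (le_iff.1 h).1)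
        have hra := (le_iff.1 h).2.1
        have hrT := hT r hm (hs1K.trans hra)
        rcases hra.lt_or_eq with h' | h'
        · left
          have hα'r : α' ≤ r.a := not_lt.1 (hmin r.a ⟨h', r, hm, rfl⟩)
          refine WithTop.coe_le_coe.2 (le_iff.2 ⟨by rw [hrx]; exact le_top, hra, ?_⟩)
          rw [hrT]
          refine union_subset (Iic_subset_Iic.2 hra) ?_
          rw [singleton_subset_iff]; exact hα'r
        · right
          refine WithTop.coe_le_coe.2 (le_iff.2 ⟨le_top, h'.ge, ?_⟩)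
          rw [hrT, ← h']; exact subset_union_left
  have htM : (t : Y Ω) ∈ M := by
    have h1 : IsChain (· ≤ ·) (insert (t : Y Ω) M) := hM.1.insert fun b hb _ => key b hb
    have h2 := hM.2 h1 (subset_insert _ _)
    rw [h2]; exact mem_insert _ _
  refine hno t ⟨α', Or.inr rfl, ?_, hα1⟩ htM
  exact hs1K.trans hα1.le

/-- Maximal chains contain the suprema of their subsets. -/
lemma lub_mem {M : Set (Y Ω)} (hM : IsMaxChain (· ≤ ·) M) {S : Set (Y Ω)} (hS : S ⊆ M)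
    {z : Y Ω} (hz : IsLUB S z) : z ∈ M := by
  have h1 : IsChain (· ≤ ·) (insert z M) := by
    refine hM.1.insert fun m hm _ => ?_
    by_cases h : ∀ s ∈ S, s ≤ m
    · exact Or.inl (hz.2 h)
    · push Not at h
      obtain ⟨s, hs, hsm⟩ := h
      right
      rcases hM.1.total (hS hs) hm with h' | h'
      · exact absurd h' hsm
      · exact h'.trans (hz.1 hs)
  have h2 := hM.2 h1 (subset_insert _ _)
  rw [h2]; exact mem_insert _ _

variable [Nonempty Ω]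

/-- The main property of maximal chains. -/
lemma max_chain [WellFoundedLT Ω] (hcb : ∀ S : Set Ω, S.Countable → BddAbove S)
    {M : Set (Y Ω)} (hM : IsMaxChain (· ≤ ·) M) {S : Set (Y Ω)} (hSM : S ⊆ M) (hS : S.Nonempty) :
    ∃ z ∈ M, IsLUB S z ∧ z ∈ closure {x | x ∈ M ∧ ∃ a ∈ S, x ≤ a} := by
  by_cases htop : ⊤ ∈ S
  · exact ⟨⊤, hSM htop, ⟨fun _ _ => le_top, fun u hu => hu htop⟩,
      subset_closure ⟨hSM htop, ⊤, htop, le_rfl⟩⟩
  let S' : Set (P Ω) := {c | (c : Y Ω) ∈ S}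
  have hS' : S'.Nonempty := by
    obtain ⟨x, hx⟩ := hS
    induction x using WithTop.recTopCoe with
    | top => exact absurd hx htop
    | coe c => exact ⟨c, hx⟩
  have hch' : IsChain (· ≤ ·) S' := by
    intro a ha b hb hne
    rcases hM.1 (hSM ha) (hSM hb) (fun h => hne (WithTop.coe_injective h)) with h | h
    · exact Or.inl (WithTop.coe_le_coe.1 h)
    · exact Or.inr (WithTop.coe_le_coe.1 h)
  -- the bounded case
  have hbd : (∃ z : P Ω, IsLUB S' z ∧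
      ∀ β : WithBot Ω, β < (z.a : WithBot Ω) → ∀ N, ∃ c ∈ S', c ∈ nb z β N) →
      ∃ z ∈ M, IsLUB S z ∧ z ∈ closure {x | x ∈ M ∧ ∃ a ∈ S, x ≤ a} := by
    rintro ⟨z, ⟨hz1, hz2⟩, hz3⟩
    have hlub : IsLUB S (z : Y Ω) := by
      refine ⟨fun x hx => ?_, fun u hu => ?_⟩
      · induction x using WithTop.recTopCoe with
        | top => exact absurd hx htop
        | coe c => exact WithTop.coe_le_coe.2 (hz1 hx)
      · induction u using WithTop.recTopCoe with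
        | top => exact le_top
        | coe v => exact WithTop.coe_le_coe.2 (hz2 fun c hc => WithTop.coe_le_coe.1 (hu hc))
    refine ⟨z, lub_mem hM hSM hlub, hlub, ?_⟩
    rw [mem_closure_iff]
    intro U hU hmem
    obtain ⟨β, hβ, N, hN⟩ := hU.1 _ hmem
    obtain ⟨c, hc, hcB⟩ := hz3 β hβ N
    exact ⟨_, hN c hcB, hSM hc, _, hc, le_rfl⟩
  by_cases hI : ∀ c ∈ S', c.x ≠ ⊤
  · exact hbd (caseA hcb hS' hch' hI)
  push Not at hI
  obtain ⟨c0, hc0, hc0x⟩ := hI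
  by_cases hb : BddAbove (P.a '' S')
  · exact hbd (caseB hcb hch' hc0 hc0x hb)
  have hlub : IsLUB S (⊤ : Y Ω) := by
    refine ⟨fun _ _ => le_top, fun u hu => ?_⟩
    induction u using WithTop.recTopCoe with
    | top => exact le_rfl
    | coe v =>
      refine absurd ⟨v.a, ?_⟩ hb
      rintro _ ⟨c, hc, rfl⟩
      exact (le_iff.1 (WithTop.coe_le_coe.1 (hu hc))).2.1
  refine ⟨⊤, lub_mem hM hSM hlub, hlub, ?_⟩
  rw [mem_closure_iff]
  intro U hU hmem
  obtain ⟨K, hK⟩ := hU.2 hmem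
  obtain ⟨r, hrU, hrM⟩ := meets_Up hM (S := S') (fun s hs => hSM hs) hc0 hc0x hb K
  refine ⟨r, hK r hrU, hrM, ?_⟩
  by_contra hc
  push Not at hc
  refine hb ⟨r.a, ?_⟩
  rintro _ ⟨s, hs, rfl⟩
  rcases hM.1.total hrM (hSM hs) with h | h
  · exact absurd h (hc s hs)
  · exact (le_iff.1 (WithTop.coe_le_coe.1 h)).2.1

/-- The set of type I points has the supremum `⊤`, but `⊤` is far from it. -/
lemma not_sc [NoMaxOrder Ω] : ¬ ∃ z : Y Ω, IsLUB {y : Y Ω | ∃ p : P Ω, p.x ≠ ⊤ ∧ y = p} z ∧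
    z ∈ closure {x : Y Ω | ∃ a ∈ {y : Y Ω | ∃ p : P Ω, p.x ≠ ⊤ ∧ y = p}, x ≤ a} := by
  rintro ⟨z, hz, hcl⟩
  have hztop : z = ⊤ := by
    induction z using WithTop.recTopCoe with
    | top => rfl
    | coe v =>
      exfalso
      obtain ⟨b, hb⟩ := exists_gt v.a
      let p : P Ω := ⟨((({b} : Finset Ω) : WithTop (Finset Ω)), b, Iic b), subset_rfl, by simp,
        fun F hF => by
          rw [WithTop.coe_eq_coe] at hF
          subst hF
          simp⟩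
      have h1 : ((p : P Ω) : Y Ω) ≤ v := hz.1 ⟨p, WithTop.coe_ne_top, rfl⟩
      exact absurd (le_iff.1 (WithTop.coe_le_coe.1 h1)).2.1 (not_le.2 hb)
  subst hztop
  rw [mem_closure_iff] at hcl
  obtain ⟨x, hx, ⟨a, ⟨p, hp, rfl⟩, hxa⟩⟩ :=
    hcl (UpY (Classical.arbitrary Ω)) (isOpen_UpY _) (Or.inl rfl)
  rcases hx with rfl | ⟨r, ⟨g, hg, -, hga⟩, rfl⟩
  · exact absurd (top_le_iff.1 hxa) WithTop.coe_ne_top
  · have h1 := (le_iff.1 (WithTop.coe_le_coe.1 hxa)).1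
    have hrx : r.x ≠ ⊤ := fun h => hp (top_le_iff.1 (by rw [← h]; exact h1))
    obtain ⟨F, hF⟩ := WithTop.ne_top_iff_exists.1 hrx
    rw [(r.typeI hF.symm).2.2] at hg
    exact absurd hga (not_lt.2 hg)

end chains

/-- The well-ordered set `ω₁`. -/
abbrev W := (Cardinal.aleph 1).ord.ToType

lemma W_bdd (S : Set W) (hS : S.Countable) : BddAbove S := by
  by_contra hb
  have h1 : (univ : Set W) ⊆ ⋃ s ∈ S, Iio s := by
    intro x _
    by_contra hx
    simp only [mem_iUnion, not_exists] at hx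
    refine hb ⟨x, fun s hs => ?_⟩
    exact not_lt.1 fun h => hx s hs h
  have h2 : ∀ s ∈ S, (Iio s).Countable := by
    intro s _
    have h3 : Cardinal.mk (Iio s) < Cardinal.aleph 1 := by
      have := Cardinal.mk_Iio_lt s (by rw [Cardinal.mk_ord_toType, Ordinal.type_toType])
      rwa [Cardinal.mk_ord_toType] at this
    rw [← Cardinal.le_aleph0_iff_set_countable]
    exact Order.lt_succ_iff.1 (h3.trans_eq Cardinal.succ_aleph0.symm)
  have h3 : (univ : Set W).Countable := (hS.biUnion h2).mono h1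
  rw [← Cardinal.le_aleph0_iff_set_countable, Cardinal.mk_univ, Cardinal.mk_ord_toType,
    ← Cardinal.succ_aleph0] at h3
  exact absurd h3 (not_le.2 (Order.lt_succ _))

/-- There is a Hausdorff topological semilattice all of whose maximal chains are s-complete
(as topological semilattices with the subspace topology and the restricted operation), but which
is not s-complete. -/
theorem result : ∃ (X : Type) (_ : TopologicalSpace X) (_ : SemilatticeInf X),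
    T2Space X ∧ ContinuousInf X ∧
    (∀ (L : Set X) (hL : IsMaxChain (· ≤ ·) L), @SComplete L _ (chainSemilattice L hL.1)) ∧
    ¬ SComplete X := by
  have : NoMaxOrder W := Cardinal.noMaxOrder (Cardinal.aleph0_le_aleph 1)
  have : Nonempty W := by
    rw [← Cardinal.mk_ne_zero_iff, Cardinal.mk_ord_toType]
    exact (Cardinal.aleph_pos 1).ne'
  refine ⟨(Y W)ᵒᵈ, inferInstance, inferInstance, inferInstanceAs (T2Space (Y W)),
    inferInstance, ?_, ?_⟩
  · intro L hL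
    let _ := chainSemilattice L hL.1
    have hM : IsMaxChain (· ≤ ·) (OrderDual.toDual ⁻¹' L : Set (Y W)) := by
      refine ⟨fun a ha b hb hne => (hL.1 ha hb hne).symm, fun t ht hsub => ?_⟩
      have h1 : IsChain (· ≤ ·) (OrderDual.ofDual ⁻¹' t : Set (Y W)ᵒᵈ) :=
        fun a ha b hb hne => (ht ha hb hne).symm
      exact hL.2 h1 hsub
    have main : ∀ S : Set L, S.Nonempty → ∃ z : L, IsGLB S z ∧ z ∈ closure {x | ∃ a ∈ S, a ≤ x} := by
      intro S hS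
      obtain ⟨z, hzM, hz1, hz2⟩ := max_chain W_bdd hM
        (S := OrderDual.toDual ⁻¹' (Subtype.val '' S : Set (Y W)ᵒᵈ))
        (by rintro _ ⟨s, -, hs⟩; change OrderDual.toDual _ ∈ L; rw [← hs]; exact s.2)
        (by obtain ⟨s, hs⟩ := hS; exact ⟨OrderDual.ofDual s.1, s, hs, rfl⟩)
      refine ⟨⟨OrderDual.toDual z, hzM⟩, ⟨?_, ?_⟩, ?_⟩
      · intro s hs
        exact hz1.1 ⟨s, hs, rfl⟩
      · intro u hu
        refine hz1.2 ?_
        rintro _ ⟨s, hs, hsx⟩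
        have := hu hs
        change OrderDual.ofDual (OrderDual.toDual _) ≤ OrderDual.ofDual u.1
        rw [← hsx]
        exact this
      · rw [closure_subtype]
        have : (Subtype.val '' {x : L | ∃ a ∈ S, a ≤ x} : Set (Y W)ᵒᵈ) =
            {x | x ∈ L ∧ ∃ a ∈ (Subtype.val '' S : Set (Y W)ᵒᵈ), a ≤ x} := by
          ext x
          constructor
          · rintro ⟨y, ⟨a, ha, hay⟩, rfl⟩
            exact ⟨y.2, a.1, ⟨a, ha, rfl⟩, hay⟩
          · rintro ⟨hx, _, ⟨a, ha, rfl⟩, hax⟩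
            exact ⟨⟨x, hx⟩, ⟨a, ha, hax⟩, rfl⟩
        rw [this]
        exact hz2
    refine ⟨fun S hS _ => main S hS, fun C hC hch => ?_⟩
    have hC' : (OrderDual.toDual ⁻¹' (Subtype.val '' C : Set (Y W)ᵒᵈ) : Set (Y W)).Nonempty := by
      obtain ⟨s, hs⟩ := hC
      exact ⟨OrderDual.ofDual s.1, s, hs, rfl⟩
    obtain ⟨c, ⟨c', hc', hcc⟩, hc2⟩ := exists_isLeast hC' (by
      rintro a ⟨a', ha', haa⟩ b ⟨b', hb', hbb⟩ hne
      have ha : OrderDual.toDual a ∈ L := by rw [← haa]; exact a'.2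
      have hb : OrderDual.toDual b ∈ L := by rw [← hbb]; exact b'.2
      exact hM.1 ha hb hne)
    refine ⟨c', ⟨fun x hx => ?_, fun u hu => hu hc'⟩, subset_closure ⟨c', hc', le_rfl⟩⟩
    have h1 := hc2 (show (OrderDual.ofDual x.1 : Y W) ∈ _ from ⟨x, hx, rfl⟩)
    change x.1 ≤ c'.1
    rw [hcc]
    exact h1
  · rintro ⟨h, -⟩
    have := h (OrderDual.ofDual ⁻¹' {y : Y W | ∃ p : P W, p.x ≠ ⊤ ∧ y = p}) ?_ ?_
    · exact not_sc this
    · let b : W := Classical.arbitrary W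
      let p : P W := ⟨((({b} : Finset W) : WithTop (Finset W)), b, Iic b), subset_rfl, by simp,
        fun F hF => by
          rw [WithTop.coe_eq_coe] at hF
          subst hF
          simp⟩
      exact ⟨OrderDual.toDual (p : Y W), p, WithTop.coe_ne_top, rfl⟩
    · rintro a ⟨p, hp, ha⟩ b ⟨q, hq, hb⟩
      refine ⟨p ⊔ q, ?_, ?_⟩
      · obtain ⟨A, hA⟩ := WithTop.ne_top_iff_exists.1 hp
        obtain ⟨B, hB⟩ := WithTop.ne_top_iff_exists.1 hq
        rw [sup_x, ← hA, ← hB, ← WithTop.coe_sup]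
        exact WithTop.coe_ne_top
      · change (OrderDual.ofDual a ⊔ OrderDual.ofDual b : Y W) = _
        rw [ha, hb, WithTop.coe_sup]

end Pool.Agent.Results.MP_cb28d9_gt.MaximalChains
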